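import Pool.Agent.VLF.Stmts
import Pool.Agent.Helper25_ZOL.Fant

/-!
# VLF, row CRT (MP_a7acc9_gt): lifting for composite moduli
-/

set_option autoImplicit false

namespace Pool.Agent.VLF.H71

open Pool.Agent.ZOL Finset

theorem zmod_ext_of_coprime (n n₁ n₂ : ℕ) (h : n = n₁ * n₂) (hc : Nat.Coprime n₁ n₂)
    (f₁ : ZMod n →+* ZMod n₁) (f₂ : ZMod n →+* ZMod n₂) (x y : ZMod n)
    (h₁ : f₁ x = f₁ y) (h₂ : f₂ x = f₂ y) : x = y := by
  subst h
  have e₁ : f₁ = (RingHom.fst (ZMod n₁) (ZMod n₂)).comp (ZMod.chineseRemainder hc).toRingHom :=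
    Subsingleton.elim _ _
  have e₂ : f₂ = (RingHom.snd (ZMod n₁) (ZMod n₂)).comp (ZMod.chineseRemainder hc).toRingHom :=
    Subsingleton.elim _ _
  rw [e₁] at h₁
  rw [e₂] at h₂
  apply (ZMod.chineseRemainder hc).injective
  exact Prod.ext h₁ h₂

theorem F_anti {a b : ℕ} (h : a ≤ b) : F b ≤ F a := by
  have : Antitone F := antitone_nat_of_succ_le fun d => Pool.Agent.ZOL.H25.fant d
  exact this h

theorem crt (hTYP : TypStmt) : CrtStmt := by
  intro n N hN
  revert hN n
  refine Nat.recOnPosPrimePosCoprime (motive := fun N => ∀ n : ℕ, 0 < N → ∀ hn : n ∣ N, ∃ D : ℕ,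
    ∀ (d : ℕ) (v : ZK →+ ZMod n), (∀ x ∈ F (d + 1), v x = 0) →
    ∃ W : ZK →+ ZMod N, (∀ x ∈ F (d * D + 1), W x = 0) ∧ ∀ x, ZMod.castHom hn (ZMod n) (W x) = v x)
    ?_ ?_ ?_ ?_ N
  · intro p m hp hm n _ hn
    obtain ⟨k, hk, rfl⟩ := (Nat.dvd_prime_pow hp).1 hn
    rcases Nat.eq_zero_or_pos k with rfl | hk0
    · refine ⟨0, fun d v _ => ⟨0, fun x _ => rfl, fun x => ?_⟩⟩
      haveI : Subsingleton (ZMod (p ^ 0)) := by
        rw [pow_zero]
        infer_instance
      exact Subsingleton.elim _ _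
    · refine ⟨Dg p k (m - k), fun d v hv => ?_⟩
      let V : ZK →+ ℤ := Finsupp.liftAddHom fun K =>
        (AddMonoidHom.mulRight (((v (Finsupp.single K 1)).val : ℕ) : ℤ))
      have hV : ∀ K : Knot, V (Finsupp.single K 1) = ((v (Finsupp.single K 1)).val : ℤ) := by
        intro K
        simp [V]
      haveI : NeZero (p ^ k) := ⟨(pow_pos hp.pos k).ne'⟩
      have hVv : ∀ x : ZK, ((V x : ℤ) : ZMod (p ^ k)) = v x := by
        have : (Int.castAddHom (ZMod (p ^ k))).comp V = v := by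
          apply Finsupp.addHom_ext
          intro K c
          have e : (Finsupp.single K c : ZK) = c • Finsupp.single K 1 := by
            rw [Finsupp.smul_single, smul_eq_mul, mul_one]
          rw [e, map_zsmul, map_zsmul]
          congr 1
          show ((V (Finsupp.single K 1) : ℤ) : ZMod (p ^ k)) = v (Finsupp.single K 1)
          rw [hV, Int.cast_natCast, ZMod.natCast_zmod_val]
        intro x
        exact DFunLike.congr_fun this x
      refine ⟨(Int.castAddHom (ZMod (p ^ m))).comp V, fun x hx => ?_, fun x => ?_⟩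
      · have h1 := hTYP p k (m - k) d hp hk0 v hv V hV x hx
        rw [Nat.add_sub_cancel' hk] at h1
        show ((V x : ℤ) : ZMod (p ^ m)) = 0
        rw [ZMod.intCast_zmod_eq_zero_iff_dvd]
        exact_mod_cast h1
      · show ZMod.castHom hn (ZMod (p ^ k)) ((V x : ℤ) : ZMod (p ^ m)) = v x
        rw [map_intCast]
        exact hVv x
  · intro n h0
    exact absurd h0 (lt_irrefl 0)
  · intro n _ hn
    have h1 : n = 1 := Nat.dvd_one.1 hn
    subst h1
    refine ⟨0, fun d v _ => ⟨0, fun x _ => rfl, fun x => Subsingleton.elim _ _⟩⟩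
  · intro a b ha hb hab iha ihb n _ hn
    obtain ⟨D₁, h₁⟩ := iha (Nat.gcd n a) (by omega) (Nat.gcd_dvd_right n a)
    obtain ⟨D₂, h₂⟩ := ihb (Nat.gcd n b) (by omega) (Nat.gcd_dvd_right n b)
    refine ⟨max D₁ D₂, fun d v hv => ?_⟩
    have hn1 : Nat.gcd n a ∣ n := Nat.gcd_dvd_left n a
    have hn2 : Nat.gcd n b ∣ n := Nat.gcd_dvd_left n b
    obtain ⟨W₁, hW₁, hW₁'⟩ := h₁ d ((ZMod.castHom hn1 (ZMod (Nat.gcd n a))).toAddMonoidHom.comp v)
      (fun x hx => by
        show ZMod.castHom hn1 (ZMod (Nat.gcd n a)) (v x) = 0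
        rw [hv x hx, map_zero])
    obtain ⟨W₂, hW₂, hW₂'⟩ := h₂ d ((ZMod.castHom hn2 (ZMod (Nat.gcd n b))).toAddMonoidHom.comp v)
      (fun x hx => by
        show ZMod.castHom hn2 (ZMod (Nat.gcd n b)) (v x) = 0
        rw [hv x hx, map_zero])
    refine ⟨(ZMod.chineseRemainder hab).symm.toAddMonoidHom.comp (W₁.prod W₂), fun x hx => ?_,
      fun x => ?_⟩
    · show (ZMod.chineseRemainder hab).symm (W₁ x, W₂ x) = 0
      have e1 : W₁ x = 0 := hW₁ x (F_anti (by
        have := Nat.mul_le_mul_left d (le_max_left D₁ D₂)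
        omega) hx)
      have e2 : W₂ x = 0 := hW₂ x (F_anti (by
        have := Nat.mul_le_mul_left d (le_max_right D₁ D₂)
        omega) hx)
      rw [e1, e2]
      exact map_zero (ZMod.chineseRemainder hab).symm
    · show ZMod.castHom hn (ZMod n) ((ZMod.chineseRemainder hab).symm (W₁ x, W₂ x)) = v x
      have hnn : n = Nat.gcd n a * Nat.gcd n b := by
        rw [← Nat.Coprime.gcd_mul n hab]
        exact (Nat.gcd_eq_left hn).symm
      have hc : Nat.Coprime (Nat.gcd n a) (Nat.gcd n b) :=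
        Nat.Coprime.coprime_dvd_left (Nat.gcd_dvd_right n a)
          (Nat.Coprime.coprime_dvd_right (Nat.gcd_dvd_right n b) hab)
      apply zmod_ext_of_coprime n _ _ hnn hc (ZMod.castHom hn1 _) (ZMod.castHom hn2 _)
      · have e : (ZMod.castHom hn1 (ZMod (Nat.gcd n a))).comp (ZMod.castHom hn (ZMod n)) =
            (ZMod.castHom (Nat.gcd_dvd_right n a) (ZMod (Nat.gcd n a))).comp
              ((RingHom.fst (ZMod a) (ZMod b)).comp (ZMod.chineseRemainder hab).toRingHom) :=
          Subsingleton.elim _ _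
        have e' := RingHom.congr_fun e ((ZMod.chineseRemainder hab).symm (W₁ x, W₂ x))
        refine e'.trans ?_
        show ZMod.castHom (Nat.gcd_dvd_right n a) (ZMod (Nat.gcd n a))
          ((ZMod.chineseRemainder hab) ((ZMod.chineseRemainder hab).symm (W₁ x, W₂ x))).1 = _
        rw [RingEquiv.apply_symm_apply]
        exact hW₁' x
      · have e : (ZMod.castHom hn2 (ZMod (Nat.gcd n b))).comp (ZMod.castHom hn (ZMod n)) =
            (ZMod.castHom (Nat.gcd_dvd_right n b) (ZMod (Nat.gcd n b))).comp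
              ((RingHom.snd (ZMod a) (ZMod b)).comp (ZMod.chineseRemainder hab).toRingHom) :=
          Subsingleton.elim _ _
        have e' := RingHom.congr_fun e ((ZMod.chineseRemainder hab).symm (W₁ x, W₂ x))
        refine e'.trans ?_
        show ZMod.castHom (Nat.gcd_dvd_right n b) (ZMod (Nat.gcd n b))
          ((ZMod.chineseRemainder hab) ((ZMod.chineseRemainder hab).symm (W₁ x, W₂ x))).2 = _
        rw [RingEquiv.apply_symm_apply]
        exact hW₂' x

end Pool.Agent.VLF.H71
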